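import Pool.Agent.W737.SB.Defs

/-!
# SB-NK: near isometries of the ball are near projective vector fields
-/

set_option autoImplicit false

namespace Pool.Agent.W177.SB

open Metric Set Pool.Agent.W737.SB

variable {n : ℕ}

theorem schwarz {t : ℝ} {H : V n → V n} (hd : DifferentiableOn ℂ H (ball 0 t))
    (hm : MapsTo H (ball 0 t) (ball 0 1)) (h0 : H 0 = 0) {x : V n} (hx : ‖x‖ < t) :
    ‖H x‖ ≤ ‖x‖ / t := by
  have h := Complex.dist_le_div_mul_dist_of_mapsTo_ball hd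
    (by rw [h0]; exact hm.mono_right ball_subset_closedBall) (mem_ball_zero_iff.2 hx)
  rw [h0, dist_zero_right, dist_zero_right] at h
  calc ‖H x‖ ≤ 1 / t * ‖x‖ := h
    _ = ‖x‖ / t := by ring

theorem schwarz' {t : ℝ} (ht : 0 < t) {H : V n → V n} (hd : DifferentiableOn ℂ H (ball 0 t))
    (hm : MapsTo H (ball 0 t) (ball 0 1)) (h0 : H 0 = 0) (v : V n) :
    ‖fderiv ℂ H 0 v‖ ≤ ‖v‖ / t := by
  have h := Complex.norm_fderiv_le_div_of_mapsTo_ball hd
    (by rw [h0]; exact hm.mono_right ball_subset_closedBall) ht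
  calc ‖fderiv ℂ H 0 v‖ ≤ ‖fderiv ℂ H 0‖ * ‖v‖ := ContinuousLinearMap.le_opNorm _ _
    _ ≤ 1 / t * ‖v‖ := mul_le_mul_of_nonneg_right h (norm_nonneg v)
    _ = ‖v‖ / t := by ring

/-- lower bound of the derivative of a map with a left inverse -/
theorem low {t t' : ℝ} (ht : 0 < t) (ht' : 0 < t') {H K : V n → V n}
    (hd : DifferentiableOn ℂ H (ball 0 t)) (h0 : H 0 = 0)
    (hKd : DifferentiableOn ℂ K (ball 0 t')) (hKm : MapsTo K (ball 0 t') (ball 0 1))
    (hK0 : K 0 = 0) (hKH : ∀ᶠ x in nhds (0 : V n), K (H x) = x) (v : V n) :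
    t' * ‖v‖ ≤ ‖fderiv ℂ H 0 v‖ := by
  have hH : HasFDerivAt H (fderiv ℂ H 0) 0 :=
    (hd.differentiableAt (ball_mem_nhds 0 ht)).hasFDerivAt
  have hK : HasFDerivAt K (fderiv ℂ K 0) (H 0) := by
    rw [h0]
    exact (hKd.differentiableAt (ball_mem_nhds 0 ht')).hasFDerivAt
  have h1 : HasFDerivAt (fun x => K (H x)) ((fderiv ℂ K 0).comp (fderiv ℂ H 0)) 0 := hK.comp 0 hH
  have h2 : HasFDerivAt (fun x : V n => x) ((fderiv ℂ K 0).comp (fderiv ℂ H 0)) 0 :=
    h1.congr_of_eventuallyEq (hKH.mono fun x hx => hx.symm)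
  have h3 := h2.unique (hasFDerivAt_id (𝕜 := ℂ) (0 : V n))
  have h4 : fderiv ℂ K 0 (fderiv ℂ H 0 v) = v := by
    have := congrArg (fun T : V n →L[ℂ] V n => T v) h3
    simpa using this
  have h5 := schwarz' ht' hKd hKm hK0 (fderiv ℂ H 0 v)
  rw [h4, le_div_iff₀ ht'] at h5
  linarith

/-- a nearly isometric Schwarz map is nearly linear -/
theorem near_linear {t t' M : ℝ} (ht : 0 < t) (ht' : 0 ≤ t') (hM : 0 < M)
    (hM' : 1 / t ^ 2 - t' ^ 2 ≤ M) {H : V n → V n}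
    (hd : DifferentiableOn ℂ H (ball 0 t)) (hm : MapsTo H (ball 0 t) (ball 0 1)) (h0 : H 0 = 0)
    (hlow : ∀ v, t' * ‖v‖ ≤ ‖fderiv ℂ H 0 v‖) {x : V n} (hx : ‖x‖ < t) :
    ‖H x - fderiv ℂ H 0 x‖ ^ 2 ≤ M * ‖x‖ ^ 2 * (1 + 4 * ‖x‖ / (t - ‖x‖)) := by
  rcases eq_or_ne x 0 with rfl | hx0
  · simp [h0]
  have hr : 0 < ‖x‖ := norm_pos_iff.2 hx0
  set r : ℝ := ‖x‖ with hrdef
  set L := fderiv ℂ H 0 with hL
  set u : V n := ((r : ℂ)⁻¹) • x with hu
  have hrC : (r : ℂ) ≠ 0 := by exact_mod_cast hr.ne'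
  have hu1 : ‖u‖ = 1 := by
    rw [hu, norm_smul, norm_inv, Complex.norm_real, Real.norm_eq_abs, abs_of_pos hr, ← hrdef]
    field_simp
  have hxu : x = (r : ℂ) • u := by
    rw [hu, smul_smul, mul_inv_cancel₀ hrC, one_smul]
  -- the slice
  have hmap : MapsTo (fun l : ℂ => l • u) (ball 0 t) (ball 0 t) := by
    intro l hl
    rw [mem_ball_zero_iff] at hl ⊢
    rw [norm_smul, hu1, mul_one]
    exact hl
  set φ : ℂ → ℂ := fun l => inner ℂ (L u) (H (l • u)) with hφ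
  have hφd : DifferentiableOn ℂ φ (ball 0 t) := by
    have h1 : DifferentiableOn ℂ (fun l : ℂ => H (l • u)) (ball 0 t) :=
      hd.comp (by fun_prop) hmap
    exact ((innerSL ℂ (L u)).differentiable.comp_differentiableOn h1)
  have hφ0 : φ 0 = 0 := by simp [hφ, h0]
  have hφm : MapsTo φ (ball 0 t) (closedBall (φ 0) ‖L u‖) := by
    intro l hl
    rw [hφ0, mem_closedBall_zero_iff]
    have h1 : ‖H (l • u)‖ < 1 := by
      have := hm (hmap hl)
      rwa [mem_ball_zero_iff] at this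
    calc ‖φ l‖ ≤ ‖L u‖ * ‖H (l • u)‖ := norm_inner_le_norm _ _
      _ ≤ ‖L u‖ * 1 := mul_le_mul_of_nonneg_left h1.le (norm_nonneg _)
      _ = ‖L u‖ := mul_one _
  have hHd : HasFDerivAt H L ((0 : ℂ) • u) := by
    rw [zero_smul]
    exact (hd.differentiableAt (ball_mem_nhds 0 ht)).hasFDerivAt
  have hφ' : HasDerivAt φ (inner ℂ (L u) (L u)) 0 := by
    have h1 : HasDerivAt (fun l : ℂ => l • u) u 0 := by
      simpa using (hasDerivAt_id (0 : ℂ)).smul_const u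
    have h2 : HasDerivAt (fun l : ℂ => H (l • u)) (L u) 0 := hHd.comp_hasDerivAt 0 h1
    exact (innerSL ℂ (L u)).hasFDerivAt.comp_hasDerivAt (0 : ℂ) h2
  set q : ℂ → ℂ := dslope φ 0 with hq
  have hqd : DifferentiableOn ℂ q (ball 0 t) :=
    (Complex.differentiableOn_dslope (ball_mem_nhds 0 ht)).2 hφd
  have hq0 : q 0 = ((‖L u‖ ^ 2 : ℝ) : ℂ) := by
    rw [hq, dslope_same, hφ'.deriv, inner_self_eq_norm_sq_to_K]
    push_cast
    rfl
  have hLu : ‖L u‖ ≤ 1 / t := by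
    have := schwarz' ht hd hm h0 u
    rwa [hu1] at this
  have hLu' : t' ≤ ‖L u‖ := by
    have := hlow u
    rwa [hu1, mul_one] at this
  have hqb : ∀ l ∈ ball (0 : ℂ) t, ‖q l‖ ≤ 1 / t ^ 2 := by
    intro l hl
    refine (Complex.norm_dslope_le_div_of_mapsTo_ball hφd hφm hl).trans ?_
    rw [div_le_iff₀ ht]
    refine hLu.trans (le_of_eq ?_)
    field_simp
  have hLsq : 1 / t ^ 2 - ‖L u‖ ^ 2 ≤ M := by
    refine le_trans ?_ hM'
    have := pow_le_pow_left₀ ht' hLu' 2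
    linarith
  have hmem : (r : ℂ) ∈ ball (0 : ℂ) t := by
    rw [mem_ball_zero_iff, Complex.norm_real, Real.norm_eq_abs, abs_of_pos hr]
    exact hx
  have hBC := Complex.borelCaratheodory_zero (f := fun l => q l - q 0) (M := M) (R := t)
    (z := (r : ℂ)) hM (hqd.sub_const _) (by
      intro l hl
      show (q l - q 0).re ≤ M
      rw [Complex.sub_re, hq0, Complex.ofReal_re]
      have h1 : (q l).re ≤ ‖q l‖ := Complex.re_le_norm _
      have h2 := hqb l hl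
      linarith) ht hmem (by simp)
  rw [Complex.norm_real, Real.norm_eq_abs, abs_of_pos hr] at hBC
  -- expand
  have hHx : ‖H x‖ ≤ r / t := schwarz hd hm h0 hx
  have hφr : φ r = (r : ℂ) * q r := by
    have := sub_smul_dslope φ 0 (r : ℂ)
    rw [sub_zero, hφ0, sub_zero, smul_eq_mul] at this
    rw [hq, this]
  have hLx : L x = (r : ℂ) • L u := by
    conv_lhs => rw [hxu]
    rw [map_smul]
  have hin : (inner ℂ (H x) (L x) : ℂ).re = r ^ 2 * (q r).re := by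
    rw [← inner_conj_symm, Complex.conj_re, hLx, inner_smul_left, Complex.conj_ofReal]
    have h1 : (inner ℂ (L u) (H x) : ℂ) = φ r := by
      rw [hφ]
      show _ = inner ℂ (L u) (H ((r : ℂ) • u))
      rw [← hxu]
    rw [h1, hφr, ← mul_assoc]
    rw [← Complex.ofReal_mul, Complex.re_ofReal_mul]
    ring
  have hexp : ‖H x - L x‖ ^ 2 = ‖H x‖ ^ 2 - 2 * (inner ℂ (H x) (L x) : ℂ).re + ‖L x‖ ^ 2 := by
    have := @norm_sub_sq ℂ (V n) _ _ _ (H x) (L x)
    simpa using this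
  have hLxn : ‖L x‖ ^ 2 = r ^ 2 * ‖L u‖ ^ 2 := by
    rw [hLx, norm_smul, Complex.norm_real, Real.norm_eq_abs, abs_of_pos hr, mul_pow]
  have hre : ‖L u‖ ^ 2 - (q r).re ≤ 2 * M * r / (t - r) := by
    have h1 : ‖L u‖ ^ 2 - (q r).re = -((q r - q 0).re) := by
      rw [Complex.sub_re, hq0, Complex.ofReal_re]
      ring
    rw [h1]
    have h2 := (abs_le.1 (Complex.abs_re_le_norm (q r - q 0))).1
    linarith
  rw [hexp, hin, hLxn]
  have h1 : ‖H x‖ ^ 2 ≤ r ^ 2 * (1 / t ^ 2) := by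
    refine (pow_le_pow_left₀ (norm_nonneg _) hHx 2).trans (le_of_eq ?_)
    rw [div_pow]
    ring
  have hr2 : 0 ≤ r ^ 2 := sq_nonneg r
  calc ‖H x‖ ^ 2 - 2 * (r ^ 2 * (q r).re) + r ^ 2 * ‖L u‖ ^ 2
      ≤ r ^ 2 * ((1 / t ^ 2 - ‖L u‖ ^ 2) + 2 * (‖L u‖ ^ 2 - (q r).re)) := by linarith
    _ ≤ r ^ 2 * (M + 2 * (2 * M * r / (t - r))) :=
        mul_le_mul_of_nonneg_left (by linarith) hr2
    _ = M * r ^ 2 * (1 + 4 * r / (t - r)) := by ring

/-- polarisation: an operator with small quadratic form is small -/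
theorem pol {T : V n →L[ℂ] V n} {ε : ℝ} (h : ∀ y, ‖(inner ℂ (T y) y : ℂ)‖ ≤ ε * ‖y‖ ^ 2)
    (y : V n) : ‖T y‖ ≤ 2 * ε * ‖y‖ := by
  rcases eq_or_ne y 0 with rfl | hy
  · simp
  have hy0 : 0 < ‖y‖ := norm_pos_iff.2 hy
  have hε : 0 ≤ ε := by
    have h1 := (norm_nonneg _).trans (h y)
    have h2 : 0 < ‖y‖ ^ 2 := by positivity
    exact nonneg_of_mul_nonneg_left h1 h2
  rcases eq_or_ne (T y) 0 with hT | hT
  · rw [hT, norm_zero]
    positivity
  have hT0 : 0 < ‖T y‖ := norm_pos_iff.2 hT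
  have key : ∀ x : V n, ‖(inner ℂ (T y) x : ℂ)‖ ≤ ε * (‖x‖ ^ 2 + ‖y‖ ^ 2) := by
    intro x
    have h1 := inner_map_polarization (T : V n →ₗ[ℂ] V n) x y
    have e1 := h (x + y)
    have e2 := h (x - y)
    have e3 := h (x + Complex.I • y)
    have e4 := h (x - Complex.I • y)
    have p1 := @parallelogram_law_with_norm ℂ (V n) _ _ _ x y
    have p2 := @parallelogram_law_with_norm ℂ (V n) _ _ _ x (Complex.I • y)
    rw [norm_smul, Complex.norm_I, one_mul] at p2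
    have h2 : (inner ℂ (T y) x : ℂ) = (inner ℂ (T (x + y)) (x + y) - inner ℂ (T (x - y)) (x - y)
      + Complex.I * inner ℂ (T (x + Complex.I • y)) (x + Complex.I • y)
      - Complex.I * inner ℂ (T (x - Complex.I • y)) (x - Complex.I • y)) / 4 := h1
    have n3 : ‖Complex.I * (inner ℂ (T (x + Complex.I • y)) (x + Complex.I • y) : ℂ)‖ =
        ‖(inner ℂ (T (x + Complex.I • y)) (x + Complex.I • y) : ℂ)‖ := by
      rw [norm_mul, Complex.norm_I, one_mul]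
    have n4 : ‖Complex.I * (inner ℂ (T (x - Complex.I • y)) (x - Complex.I • y) : ℂ)‖ =
        ‖(inner ℂ (T (x - Complex.I • y)) (x - Complex.I • y) : ℂ)‖ := by
      rw [norm_mul, Complex.norm_I, one_mul]
    rw [h2, norm_div]
    have h4 : ‖(4 : ℂ)‖ = 4 := by simp
    rw [h4, div_le_iff₀ (by norm_num)]
    calc ‖(inner ℂ (T (x + y)) (x + y) - inner ℂ (T (x - y)) (x - y)
        + Complex.I * inner ℂ (T (x + Complex.I • y)) (x + Complex.I • y)
        - Complex.I * inner ℂ (T (x - Complex.I • y)) (x - Complex.I • y) : ℂ)‖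
        ≤ ‖(inner ℂ (T (x + y)) (x + y) : ℂ)‖ + ‖(inner ℂ (T (x - y)) (x - y) : ℂ)‖
          + ‖Complex.I * (inner ℂ (T (x + Complex.I • y)) (x + Complex.I • y) : ℂ)‖
          + ‖Complex.I * (inner ℂ (T (x - Complex.I • y)) (x - Complex.I • y) : ℂ)‖ :=
          (norm_sub_le _ _).trans (add_le_add_left ((norm_add_le _ _).trans
            (add_le_add_left (norm_sub_le _ _) _)) _)
      _ ≤ ε * ‖x + y‖ ^ 2 + ε * ‖x - y‖ ^ 2 + ε * ‖x + Complex.I • y‖ ^ 2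
          + ε * ‖x - Complex.I • y‖ ^ 2 := by
          rw [n3, n4]
          linarith
      _ = ε * ((‖x + y‖ ^ 2 + ‖x - y‖ ^ 2) + (‖x + Complex.I • y‖ ^ 2
          + ‖x - Complex.I • y‖ ^ 2)) := by ring
      _ = ε * (‖x‖ ^ 2 + ‖y‖ ^ 2) * 4 := by
          rw [p1, p2]
          ring
  have h1 := key (((‖y‖ / ‖T y‖ : ℝ) : ℂ) • T y)
  rw [inner_smul_right, inner_self_eq_norm_sq_to_K, norm_smul, norm_mul, Complex.norm_real,
    Real.norm_eq_abs, abs_of_pos (div_pos hy0 hT0), div_mul_cancel₀ _ hT0.ne'] at h1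
  have h2 : ‖(((‖T y‖ : ℝ) : ℂ)) ^ 2‖ = ‖T y‖ ^ 2 := by
    rw [norm_pow, Complex.norm_real, norm_norm]
  have h3 : ‖y‖ / ‖T y‖ * ‖T y‖ ^ 2 = ‖y‖ * ‖T y‖ := by
    field_simp
  have h4 : ‖y‖ * ‖T y‖ ≤ ε * (‖y‖ ^ 2 + ‖y‖ ^ 2) := by
    rw [← h3, ← h2]
    exact h1
  have h5 : ‖y‖ * ‖T y‖ ≤ ‖y‖ * (2 * ε * ‖y‖) := by
    refine h4.trans (le_of_eq ?_)
    ring
  exact le_of_mul_le_mul_left h5 hy0

/-- second order expansion of the automorphism -/
theorem aut2 {a w : V n} (ha : ‖a‖ ≤ 1 / 50) (hw : ‖w‖ ≤ 1) :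
    ‖aut a (-w) - (w + a - (inner ℂ a w : ℂ) • w)‖ ≤ 4 * ‖a‖ ^ 2 := by
  set σr : ℝ := Real.sqrt (1 - ‖a‖ ^ 2) with hσr
  have ha0 := norm_nonneg a
  have ha2 : ‖a‖ ^ 2 ≤ 1 := by nlinarith
  have hσ1 : 1 - ‖a‖ ^ 2 ≤ σr := by
    rw [hσr]
    refine Real.le_sqrt_of_sq_le ?_
    nlinarith [sq_nonneg ‖a‖]
  have hσ2 : σr ≤ 1 := by
    rw [hσr]
    exact Real.sqrt_le_one.2 (by nlinarith [sq_nonneg ‖a‖])
  have hσ0 : 0 ≤ σr := Real.sqrt_nonneg _
  set σ : ℂ := (σr : ℂ) with hσ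
  have hσne : (1 : ℂ) + σ ≠ 0 := by
    rw [hσ]
    have : (1 : ℝ) + σr ≠ 0 := by positivity
    exact_mod_cast this
  set c : ℂ := inner ℂ a w with hc
  have hcn : ‖c‖ ≤ ‖a‖ := by
    calc ‖c‖ ≤ ‖a‖ * ‖w‖ := norm_inner_le_norm _ _
      _ ≤ ‖a‖ * 1 := mul_le_mul_of_nonneg_left hw ha0
      _ = ‖a‖ := mul_one _
  have h1c : 49 / 50 ≤ ‖1 + c‖ := by
    have : ‖(1 : ℂ)‖ ≤ ‖1 + c‖ + ‖c‖ := by
      calc ‖(1 : ℂ)‖ = ‖(1 + c) - c‖ := by ring_nf
        _ ≤ ‖1 + c‖ + ‖c‖ := norm_sub_le _ _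
    rw [norm_one] at this
    linarith
  have h1c0 : (1 : ℂ) + c ≠ 0 := by
    intro h
    rw [h, norm_zero] at h1c
    norm_num at h1c
  set e : ℂ := c / (1 + σ) with he
  have hce : c = e * (1 + σ) := by
    rw [he, div_mul_cancel₀ _ hσne]
  have heσ : ‖e * σ‖ ≤ ‖a‖ := by
    have h1 : ‖(1 : ℂ) + σ‖ = 1 + σr := by
      rw [hσ]
      have : (1 : ℂ) + (σr : ℂ) = ((1 + σr : ℝ) : ℂ) := by push_cast; rfl
      rw [this, Complex.norm_real, Real.norm_eq_abs, abs_of_nonneg (by positivity)]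
    have h2 : ‖σ‖ = σr := by
      rw [hσ, Complex.norm_real, Real.norm_eq_abs, abs_of_nonneg hσ0]
    rw [norm_mul, he, norm_div, h1, h2, div_mul_eq_mul_div, div_le_iff₀ (by positivity)]
    nlinarith [norm_nonneg c]
  have hid : aut a (-w) - (w + a - c • w) =
      (1 + c)⁻¹ • ((σ - 1) • w - (e * σ) • a + (c ^ 2) • w) := by
    have h1 : w + a - c • w = (1 + c)⁻¹ • ((1 + c) • (w + a - c • w)) := by
      rw [smul_smul, inv_mul_cancel₀ h1c0, one_smul]
    have h2 : aut a (-w) = (1 + c)⁻¹ • (a + σ • w + e • a) := by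
      unfold aut
      rw [inner_neg_right, ← hc, sub_neg_eq_add, ← hσr, ← hσ, neg_div, ← he]
      congr 1
      module
    rw [h2, h1, ← smul_sub]
    congr 1
    have h3 : a + σ • w + e • a - (1 + c) • (w + a - c • w) =
        (σ - 1) • w + (e - c) • a + (c ^ 2) • w := by module
    have h4 : e - c = -(e * σ) := by
      rw [hce]
      ring
    rw [h3, h4]
    module
  rw [hid, norm_smul, norm_inv]
  have hn : ‖(σ - 1) • w - (e * σ) • a + (c ^ 2) • w‖ ≤ 3 * ‖a‖ ^ 2 := by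
    have n1 : ‖(σ - 1) • w‖ ≤ ‖a‖ ^ 2 := by
      rw [norm_smul]
      have : ‖σ - 1‖ ≤ ‖a‖ ^ 2 := by
        have h1 : σ - 1 = ((σr - 1 : ℝ) : ℂ) := by rw [hσ]; push_cast; rfl
        rw [h1, Complex.norm_real, Real.norm_eq_abs, abs_le]
        constructor <;> linarith [sq_nonneg ‖a‖]
      calc ‖σ - 1‖ * ‖w‖ ≤ ‖a‖ ^ 2 * 1 := mul_le_mul this hw (norm_nonneg _) (sq_nonneg _)
        _ = ‖a‖ ^ 2 := mul_one _
    have n2 : ‖(e * σ) • a‖ ≤ ‖a‖ ^ 2 := by
      rw [norm_smul, sq]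
      exact mul_le_mul_of_nonneg_right heσ ha0
    have n3 : ‖(c ^ 2) • w‖ ≤ ‖a‖ ^ 2 := by
      rw [norm_smul, norm_pow]
      calc ‖c‖ ^ 2 * ‖w‖ ≤ ‖a‖ ^ 2 * 1 :=
            mul_le_mul (pow_le_pow_left₀ (norm_nonneg _) hcn 2) hw (norm_nonneg _) (sq_nonneg _)
        _ = ‖a‖ ^ 2 := mul_one _
    calc ‖(σ - 1) • w - (e * σ) • a + (c ^ 2) • w‖
        ≤ ‖(σ - 1) • w‖ + ‖(e * σ) • a‖ + ‖(c ^ 2) • w‖ :=
          (norm_add_le _ _).trans (add_le_add_left (norm_sub_le _ _) _)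
      _ ≤ 3 * ‖a‖ ^ 2 := by linarith
  have h1c' : 0 < ‖1 + c‖ := by linarith
  rw [inv_mul_le_iff₀ h1c']
  nlinarith [sq_nonneg ‖a‖]

theorem t_nk (haut : S_aut) : S_nk := by
  intro n
  refine ⟨200, 1 / 100, by norm_num, by norm_num, by norm_num, ?_⟩
  intro s β hs hs0 hβ Z Gp Gm hGp hGm hGpm hGmm hmp hpm hGp2 hGm2 hZ
  have hs2 : s ^ 2 ≤ s / 100 := by nlinarith
  have hs4 : s ^ 4 ≤ s ^ 2 / 10000 := by
    have h1 : s ^ 2 ≤ 1 / 10000 := by nlinarith
    nlinarith [sq_nonneg s]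
  have hs4' : s ^ 4 ≤ 1 / 1000000 := by nlinarith
  have hs4p : 0 < s ^ 4 := by positivity
  have hs2p : 0 < s ^ 2 := by positivity
  set ε : ℝ := s ^ 4 with hε
  set t : ℝ := 1 - ε with ht
  have ht0 : 0 < t := by linarith
  set t' : ℝ := 1 - 2 * ε with ht'
  have ht'0 : 0 < t' := by linarith
  have hWZ : ∀ x, ‖x‖ ≤ 9 / 10 → ‖(Complex.I * ((s * β : ℝ) : ℂ)) • Z x‖ ≤ s := by
    intro x hx
    rw [norm_smul, norm_mul, Complex.norm_I, one_mul, Complex.norm_real, Real.norm_eq_abs,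
      abs_of_pos (by positivity)]
    calc s * β * ‖Z x‖ ≤ s * β * (1 / β) := mul_le_mul_of_nonneg_left (hZ x hx) (by positivity)
      _ = s := by field_simp
  have hGx : ∀ x, ‖x‖ ≤ 9 / 10 → ‖Gp x - x‖ ≤ s + 2 * s ^ 2 := by
    intro x hx
    calc ‖Gp x - x‖ = ‖(Gp x - x - (Complex.I * ((s * β : ℝ) : ℂ)) • Z x)
          + (Complex.I * ((s * β : ℝ) : ℂ)) • Z x‖ := by rw [sub_add_cancel]
      _ ≤ 2 * s ^ 2 + s := (norm_add_le _ _).trans (add_le_add (hGp2 x hx) (hWZ x hx))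
      _ = s + 2 * s ^ 2 := by ring
  set a : V n := Gp 0 with ha
  have hal : ‖a‖ ≤ 2 * s := by
    have := hGx 0 (by simp; norm_num)
    rw [sub_zero] at this
    linarith
  have ha0 := norm_nonneg a
  have ha50 : ‖a‖ ≤ 1 / 50 := by linarith
  have ha1 : ‖a‖ < 1 := by linarith
  obtain ⟨hAd, hAm, hAi, hA0, hAa, _, hA2, _⟩ := haut n a ha1
  set H : V n → V n := fun x => -aut a (Gp x) with hH
  have hHd : DifferentiableOn ℂ H (ball 0 t) := (hAd.comp hGp hGpm).neg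
  have hHm : MapsTo H (ball 0 t) (ball 0 1) := by
    intro x hx
    have := hAm (hGpm hx)
    rw [mem_ball_zero_iff] at this ⊢
    rw [hH]
    simpa using this
  have hH0 : H 0 = 0 := by
    show -aut a (Gp 0) = 0
    rw [← ha, hAa, neg_zero]
  set K : V n → V n := fun y => Gm (aut a (-y)) with hK
  have hKmap : MapsTo (fun y : V n => aut a (-y)) (ball 0 t') (ball 0 t) := by
    intro y hy
    rw [mem_ball_zero_iff] at hy ⊢
    have hy0 := norm_nonneg y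
    have hy1 : ‖-y‖ < 1 := by rw [norm_neg]; linarith
    have h1 := hA2 (-y) (mem_ball_zero_iff.2 hy1)
    rw [norm_neg] at h1
    have h2 : ‖a‖ + ‖y‖ < t * (1 + ‖a‖ * ‖y‖) := by
      have h3 : ‖y‖ * (1 - t * ‖a‖) < t' * (1 - t * ‖a‖) :=
        mul_lt_mul_of_pos_right hy (by nlinarith)
      have h4 : t' * (1 - t * ‖a‖) ≤ t - ‖a‖ := by
        rw [ht, ht']
        nlinarith [mul_nonneg ha0 hs4p.le, mul_nonneg ha0 (mul_nonneg hs4p.le hs4p.le)]
      nlinarith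
    have h5 : 0 < 1 + ‖a‖ * ‖y‖ := by positivity
    exact lt_of_mul_lt_mul_right (h1.trans_lt h2) h5.le
  have hball1 : ball (0 : V n) t' ⊆ ball 0 1 := ball_subset_ball (by linarith)
  have hKd : DifferentiableOn ℂ K (ball 0 t') := by
    have h1 : DifferentiableOn ℂ (fun y : V n => aut a (-y)) (ball 0 t') := by
      refine hAd.comp (by fun_prop) ?_
      intro y hy
      have := hball1 hy
      rw [mem_ball_zero_iff] at this ⊢
      rwa [norm_neg]
    exact hGm.comp h1 hKmap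
  have hKm : MapsTo K (ball 0 t') (ball 0 1) := hGmm.comp hKmap
  have hGm0 : Gm a = 0 := by
    have := hmp 0 (by rw [norm_zero]; exact ht0) (by rw [← ha]; linarith)
    rwa [← ha] at this
  have hK0 : K 0 = 0 := by
    show Gm (aut a (-0)) = 0
    rw [neg_zero, hA0, hGm0]
  have hKH : ∀ᶠ x in nhds (0 : V n), K (H x) = x := by
    have hc : ContinuousAt Gp 0 := (hGp.differentiableAt (ball_mem_nhds 0 ht0)).continuousAt
    have h1 : ∀ᶠ x in nhds (0 : V n), ‖Gp x‖ < t := by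
      have : ‖Gp 0‖ < t := by rw [← ha]; linarith
      exact hc.norm.eventually_lt_const this
    filter_upwards [h1, ball_mem_nhds (0 : V n) ht0] with x hx1 hx2
    show Gm (aut a (- -aut a (Gp x))) = x
    rw [neg_neg, hAi _ (hGpm hx2)]
    exact hmp x (mem_ball_zero_iff.1 hx2) hx1
  have hlow := low ht0 ht'0 hHd hH0 hKd hKm hK0 hKH
  have hup := schwarz' ht0 hHd hHm hH0
  set L : V n →L[ℂ] V n := fderiv ℂ H 0 with hL
  have ht2 : 1 / t ^ 2 ≤ 1 + 3 * ε := by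
    rw [div_le_iff₀ (by positivity), ht]
    nlinarith [mul_nonneg hs4p.le (mul_nonneg hs4p.le hs4p.le), mul_pos hs4p hs4p]
  have ht'2 : 1 - 4 * ε ≤ t' ^ 2 := by
    rw [ht']
    nlinarith [mul_pos hs4p hs4p]
  have hM : 1 / t ^ 2 - t' ^ 2 ≤ 7 * ε := by linarith
  have hHL : ∀ x, ‖x‖ ≤ 4 / 5 → ‖H x - L x‖ ≤ 9 * s ^ 2 := by
    intro x hx
    have hxt : ‖x‖ < t := by linarith
    have h1 := near_linear ht0 ht'0.le (by positivity) hM hHd hHm hH0 hlow hxt
    have hx0 := norm_nonneg x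
    have h2 : 4 * ‖x‖ / (t - ‖x‖) ≤ 17 := by
      rw [div_le_iff₀ (by linarith)]
      linarith
    have h3 : ‖x‖ ^ 2 ≤ 64 / 100 := by nlinarith
    have h4 : 7 * ε * ‖x‖ ^ 2 * (1 + 4 * ‖x‖ / (t - ‖x‖)) ≤ (9 * s ^ 2) ^ 2 := by
      calc 7 * ε * ‖x‖ ^ 2 * (1 + 4 * ‖x‖ / (t - ‖x‖)) ≤ 7 * ε * (64 / 100) * 18 := by
            refine mul_le_mul (mul_le_mul_of_nonneg_left h3 (by positivity)) (by linarith) ?_
              (by positivity)
            have : 0 ≤ 4 * ‖x‖ / (t - ‖x‖) := div_nonneg (by positivity) (by linarith)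
            linarith
        _ ≤ (9 * s ^ 2) ^ 2 := by
            rw [hε]
            nlinarith
    exact (abs_le_of_sq_le_sq' (h1.trans h4) (by positivity)).2
  -- relation between `Gp` and `H`
  have hGH : ∀ x, ‖x‖ ≤ 4 / 5 → ‖H x‖ ≤ 1 ∧
      ‖Gp x - (H x + a - (inner ℂ a (H x) : ℂ) • H x)‖ ≤ 16 * s ^ 2 := by
    intro x hx
    have hxt : x ∈ ball (0 : V n) t := by
      rw [mem_ball_zero_iff]
      linarith
    have hH1 : ‖H x‖ ≤ 1 := (mem_ball_zero_iff.1 (hHm hxt)).le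
    refine ⟨hH1, ?_⟩
    have h1 : Gp x = aut a (-H x) := by
      show Gp x = aut a (- -aut a (Gp x))
      rw [neg_neg, hAi _ (hGpm hxt)]
    rw [h1]
    refine (aut2 ha50 hH1).trans ?_
    nlinarith
  have hHx : ∀ x, ‖x‖ ≤ 4 / 5 → ‖H x - x‖ ≤ 7 * s := by
    intro x hx
    obtain ⟨hH1, h2⟩ := hGH x hx
    have h3 := hGx x (by linarith)
    have h4 : ‖(inner ℂ a (H x) : ℂ) • H x‖ ≤ ‖a‖ := by
      rw [norm_smul]
      calc ‖(inner ℂ a (H x) : ℂ)‖ * ‖H x‖ ≤ (‖a‖ * ‖H x‖) * ‖H x‖ :=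
            mul_le_mul_of_nonneg_right (norm_inner_le_norm _ _) (norm_nonneg _)
        _ ≤ (‖a‖ * 1) * 1 := by
            refine mul_le_mul (mul_le_mul_of_nonneg_left hH1 ha0) hH1 (norm_nonneg _)
              (by positivity)
        _ = ‖a‖ := by ring
    have h5 : H x - x = -(Gp x - (H x + a - (inner ℂ a (H x) : ℂ) • H x)) + (Gp x - x)
        - a + (inner ℂ a (H x) : ℂ) • H x := by module
    rw [h5]
    calc ‖-(Gp x - (H x + a - (inner ℂ a (H x) : ℂ) • H x)) + (Gp x - x)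
        - a + (inner ℂ a (H x) : ℂ) • H x‖
        ≤ ‖-(Gp x - (H x + a - (inner ℂ a (H x) : ℂ) • H x))‖ + ‖Gp x - x‖ + ‖a‖
          + ‖(inner ℂ a (H x) : ℂ) • H x‖ :=
          (norm_add_le _ _).trans (add_le_add_left ((norm_sub_le _ _).trans
            (add_le_add_left (norm_add_le _ _) _)) _)
      _ ≤ 7 * s := by
          rw [norm_neg]
          linarith
  obtain ⟨D, hD⟩ : ∃ D : V n →L[ℂ] V n, D = L - ContinuousLinearMap.id ℂ (V n) := ⟨_, rfl⟩
  have hDx : ∀ x, ‖x‖ ≤ 4 / 5 → ‖D x‖ ≤ 8 * s := by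
    intro x hx
    have h1 : D x = (H x - x) - (H x - L x) := by
      rw [hD]
      simp
    rw [h1]
    refine (norm_sub_le _ _).trans ?_
    have := hHx x hx
    have := hHL x hx
    linarith
  have hDn : ‖D‖ ≤ 10 * s := by
    refine ContinuousLinearMap.opNorm_le_bound _ (by positivity) fun v => ?_
    rcases eq_or_ne v 0 with rfl | hv
    · simp
    have hv0 : 0 < ‖v‖ := norm_pos_iff.2 hv
    have h1 := hDx (((4 / 5 / ‖v‖ : ℝ) : ℂ) • v) (by
      rw [norm_smul, Complex.norm_real, Real.norm_eq_abs, abs_of_pos (by positivity),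
        div_mul_cancel₀ _ hv0.ne'])
    rw [map_smul, norm_smul, Complex.norm_real, Real.norm_eq_abs, abs_of_pos (by positivity),
      div_mul_eq_mul_div, div_le_iff₀ hv0] at h1
    linarith
  -- the quadratic expansion
  have hexp : ∀ x, ‖x‖ ≤ 4 / 5 → ‖(Complex.I * ((s * β : ℝ) : ℂ)) • Z x -
      (a + D x - (inner ℂ a x : ℂ) • x)‖ ≤ 55 * s ^ 2 := by
    intro x hx
    obtain ⟨hH1, h2⟩ := hGH x hx
    have h3 := hHx x hx
    have h4 := hHL x hx
    have h5 := hGp2 x (by linarith)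
    have h6 : ‖(inner ℂ a (H x) : ℂ) • H x - (inner ℂ a x : ℂ) • x‖ ≤ 28 * s ^ 2 := by
      have e1 : (inner ℂ a (H x) : ℂ) • H x - (inner ℂ a x : ℂ) • x =
          (inner ℂ a (H x - x) : ℂ) • H x + (inner ℂ a x : ℂ) • (H x - x) := by
        rw [inner_sub_right]
        module
      rw [e1]
      calc ‖(inner ℂ a (H x - x) : ℂ) • H x + (inner ℂ a x : ℂ) • (H x - x)‖
          ≤ ‖(inner ℂ a (H x - x) : ℂ)‖ * ‖H x‖ + ‖(inner ℂ a x : ℂ)‖ * ‖H x - x‖ := by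
            refine (norm_add_le _ _).trans ?_
            rw [norm_smul, norm_smul]
        _ ≤ (‖a‖ * ‖H x - x‖) * 1 + (‖a‖ * 1) * ‖H x - x‖ := by
            refine add_le_add (mul_le_mul (norm_inner_le_norm _ _) hH1 (norm_nonneg _)
              (by positivity)) (mul_le_mul_of_nonneg_right ?_ (norm_nonneg _))
            exact (norm_inner_le_norm _ _).trans (mul_le_mul_of_nonneg_left (by linarith) ha0)
        _ = 2 * (‖a‖ * ‖H x - x‖) := by ring
        _ ≤ 2 * ((2 * s) * (7 * s)) := by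
            refine mul_le_mul_of_nonneg_left (mul_le_mul hal h3 (norm_nonneg _) (by positivity))
              (by norm_num)
        _ = 28 * s ^ 2 := by ring
    have h7 : (Complex.I * ((s * β : ℝ) : ℂ)) • Z x - (a + D x - (inner ℂ a x : ℂ) • x) =
        -(Gp x - x - (Complex.I * ((s * β : ℝ) : ℂ)) • Z x)
        + (Gp x - (H x + a - (inner ℂ a (H x) : ℂ) • H x)) + (H x - L x)
        - ((inner ℂ a (H x) : ℂ) • H x - (inner ℂ a x : ℂ) • x) := by
      have : D x = L x - x := by rw [hD]; simp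
      rw [this]
      module
    rw [h7]
    calc ‖-(Gp x - x - (Complex.I * ((s * β : ℝ) : ℂ)) • Z x)
        + (Gp x - (H x + a - (inner ℂ a (H x) : ℂ) • H x)) + (H x - L x)
        - ((inner ℂ a (H x) : ℂ) • H x - (inner ℂ a x : ℂ) • x)‖
        ≤ ‖-(Gp x - x - (Complex.I * ((s * β : ℝ) : ℂ)) • Z x)‖
          + ‖Gp x - (H x + a - (inner ℂ a (H x) : ℂ) • H x)‖ + ‖H x - L x‖
          + ‖(inner ℂ a (H x) : ℂ) • H x - (inner ℂ a x : ℂ) • x‖ :=
          (norm_sub_le _ _).trans (add_le_add_left ((norm_add_le _ _).trans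
            (add_le_add_left (norm_add_le _ _) _)) _)
      _ ≤ 55 * s ^ 2 := by
          rw [norm_neg]
          linarith
  -- `D + D†` is small
  obtain ⟨Ds, hDs⟩ : ∃ Ds : V n →L[ℂ] V n, Ds = ContinuousLinearMap.adjoint D := ⟨_, rfl⟩
  have hDD : ∀ v, ‖D v + Ds v‖ ≤ 101 * s ^ 2 * ‖v‖ := by
    intro v
    obtain ⟨T, hT⟩ : ∃ T : V n →L[ℂ] V n, T = (ContinuousLinearMap.adjoint L).comp L -
      ContinuousLinearMap.id ℂ (V n) := ⟨_, rfl⟩
    have hTq : ∀ y, ‖(inner ℂ (T y) y : ℂ)‖ ≤ 7 * ε * ‖y‖ ^ 2 := by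
      intro y
      have h1 : (inner ℂ (T y) y : ℂ) = ((‖L y‖ ^ 2 - ‖y‖ ^ 2 : ℝ) : ℂ) := by
        rw [hT]
        rw [sub_apply, inner_sub_left, ContinuousLinearMap.comp_apply,
          ContinuousLinearMap.adjoint_inner_left, inner_self_eq_norm_sq_to_K,
          ContinuousLinearMap.id_apply, inner_self_eq_norm_sq_to_K]
        push_cast
        rfl
      rw [h1, Complex.norm_real, Real.norm_eq_abs, abs_le]
      have h2 := hlow y
      have h3 := hup y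
      have hy0 := norm_nonneg y
      have h4 : (t' * ‖y‖) ^ 2 ≤ ‖L y‖ ^ 2 := pow_le_pow_left₀ (by positivity) h2 2
      have h5 : ‖L y‖ ^ 2 ≤ (‖y‖ / t) ^ 2 := pow_le_pow_left₀ (norm_nonneg _) h3 2
      have h6 : (‖y‖ / t) ^ 2 ≤ (1 + 3 * ε) * ‖y‖ ^ 2 := by
        rw [div_pow, div_eq_mul_one_div, mul_comm]
        exact mul_le_mul_of_nonneg_right ht2 (sq_nonneg _)
      have h7 : (1 - 4 * ε) * ‖y‖ ^ 2 ≤ (t' * ‖y‖) ^ 2 := by
        rw [mul_pow]
        exact mul_le_mul_of_nonneg_right ht'2 (sq_nonneg _)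
      have h8 : 0 ≤ ε * ‖y‖ ^ 2 := by positivity
      constructor <;> nlinarith
    have h1 := pol hTq v
    have h2 : D v + Ds v = T v - Ds (D v) := by
      have e1 : ContinuousLinearMap.adjoint L = Ds + ContinuousLinearMap.id ℂ (V n) := by
        have : L = D + ContinuousLinearMap.id ℂ (V n) := by rw [hD]; simp
        rw [hDs]
        conv_lhs => rw [this]
        rw [map_add, ContinuousLinearMap.adjoint_id]
      have e2 : L v = D v + v := by rw [hD]; simp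
      rw [hT, sub_apply, ContinuousLinearMap.comp_apply, e1, e2]
      simp only [add_apply, ContinuousLinearMap.id_apply, map_add]
      abel
    have h3 : ‖Ds (D v)‖ ≤ (10 * s) * ((10 * s) * ‖v‖) := by
      have hDsn : ‖Ds‖ ≤ 10 * s := by
        rw [hDs, LinearIsometryEquiv.norm_map]
        exact hDn
      calc ‖Ds (D v)‖ ≤ ‖Ds‖ * ‖D v‖ := ContinuousLinearMap.le_opNorm _ _
        _ ≤ (10 * s) * ((10 * s) * ‖v‖) := by
            refine mul_le_mul hDsn ?_ (norm_nonneg _) (by positivity)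
            exact (ContinuousLinearMap.le_opNorm _ _).trans
              (mul_le_mul_of_nonneg_right hDn (norm_nonneg _))
    rw [h2]
    refine (norm_sub_le _ _).trans ?_
    have h4 : 2 * (7 * ε) * ‖v‖ ≤ s ^ 2 * ‖v‖ :=
      mul_le_mul_of_nonneg_right (by linarith) (norm_nonneg _)
    nlinarith
  -- the quadratic field
  set k : ℂ := Complex.I * ((s * β : ℝ) : ℂ) with hk
  have hsβ : 0 < s * β := by positivity
  have hkn : ‖k‖ = s * β := by
    rw [hk, norm_mul, Complex.norm_I, one_mul, Complex.norm_real, Real.norm_eq_abs,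
      abs_of_pos hsβ]
  have hk0 : k ≠ 0 := by
    rw [← norm_pos_iff, hkn]
    exact hsβ
  have hkc : (starRingEnd ℂ) k⁻¹ = -k⁻¹ := by
    rw [map_inv₀, hk, map_mul, Complex.conj_I, Complex.conj_ofReal, neg_mul, inv_neg]
  set b : V n := k⁻¹ • a with hb
  set A : V n →L[ℂ] V n := ((2 : ℂ)⁻¹ * k⁻¹) • (D - Ds) with hA
  refine ⟨b, A, ?_, ?_⟩
  · intro x y
    rw [hA]
    rw [smul_apply, smul_apply, inner_smul_left,
      inner_smul_right, map_mul, hkc, sub_apply,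
      sub_apply, inner_sub_left, inner_sub_right, hDs,
      ContinuousLinearMap.adjoint_inner_left, ContinuousLinearMap.adjoint_inner_right]
    have : (starRingEnd ℂ) (2 : ℂ)⁻¹ = (2 : ℂ)⁻¹ := by
      rw [map_inv₀]
      congr 1
      exact Complex.conj_ofNat 2
    rw [this]
    ring
  · intro x hx
    have h1 := hexp x hx
    have h2 := hDD x
    have h3 : Z x - qf b A x = k⁻¹ • (k • Z x - (a + D x - (inner ℂ a x : ℂ) • x)) +
        ((2 : ℂ)⁻¹ * k⁻¹) • (D x + Ds x) := by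
      unfold qf
      rw [hb, inner_smul_left, hkc, smul_sub, smul_smul, inv_mul_cancel₀ hk0, one_smul, hA,
        smul_apply, sub_apply]
      module
    rw [h3]
    have hk' : ‖k⁻¹‖ = 1 / (s * β) := by rw [norm_inv, hkn, one_div]
    have h4 : ‖k⁻¹ • (k • Z x - (a + D x - (inner ℂ a x : ℂ) • x))‖ ≤ 1 / (s * β) * (55 * s ^ 2) := by
      rw [norm_smul, hk']
      exact mul_le_mul_of_nonneg_left h1 (by positivity)
    have h5 : ‖((2 : ℂ)⁻¹ * k⁻¹) • (D x + Ds x)‖ ≤ 1 / (s * β) * (101 * s ^ 2) := by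
      rw [norm_smul, norm_mul, hk']
      have h6 : ‖(2 : ℂ)⁻¹‖ ≤ 1 := by
        rw [norm_inv]
        simp
        norm_num
      have h7 : ‖D x + Ds x‖ ≤ 101 * s ^ 2 := by
        refine h2.trans ?_
        nlinarith
      calc ‖(2 : ℂ)⁻¹‖ * (1 / (s * β)) * ‖D x + Ds x‖
          ≤ 1 * (1 / (s * β)) * (101 * s ^ 2) := by
            refine mul_le_mul (mul_le_mul_of_nonneg_right h6 (by positivity)) h7 (norm_nonneg _)
              (by positivity)
        _ = 1 / (s * β) * (101 * s ^ 2) := by ring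
    refine (norm_add_le _ _).trans ((add_le_add h4 h5).trans ?_)
    have h8 : 1 / (s * β) * (55 * s ^ 2) + 1 / (s * β) * (101 * s ^ 2) = 156 * s / β := by
      field_simp
      ring
    rw [h8]
    exact div_le_div_of_nonneg_right (by linarith) hβ.le

end Pool.Agent.W177.SB
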